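import Mathlib

/-!
Shared definitions for the lower bound of MP_4289a5_an (see docs table, plan by helper634).

Everything (hidden and visible coordinates) is indexed by `HId T = Fin (T+1) × (Fin (T+1) × Fin T)`.
-/

namespace Pool.Agent.Helper634.Matvec

open MeasureTheory
open scoped ENNReal

/-- index type: `T+1` blocks of size `T (T+1)` -/
abbrev HId (T : ℕ) := Fin (T + 1) × (Fin (T + 1) × Fin T)

/-- product sigma algebra on matrices -/
noncomputable instance instMeasMatrix {m n : Type*} : MeasurableSpace (Matrix m n ℂ) :=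
  inferInstanceAs (MeasurableSpace (m → n → ℂ))

/-- The block cyclic shift closed with weight `g`:
`(core T g h) (i, r) = h (i-1, r)` for `i ≥ 1` and `= g * h (T, r)` for `i = 0`. -/
def core (T : ℕ) (g : ℂ) : Matrix (HId T) (HId T) ℂ := fun x y =>
  if x.2 = y.2 then
    (if (x.1 : ℕ) = (y.1 : ℕ) + 1 then 1 else if (x.1 : ℕ) = 0 ∧ (y.1 : ℕ) = T then g else 0)
  else 0

/-- the starts -/
def st (T : ℕ) (j : Fin T) : HId T := (0, (0, j))

/-- the nonadaptive view `a, j ↦ A ^ a e_{st j}` (`a ≤ T`) -/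
def NV {ι : Type*} [Fintype ι] [DecidableEq ι] {T : ℕ} (s : Fin T → ι) (A : Matrix ι ι ℂ) :
    Fin (T + 1) → Fin T → (ι → ℂ) :=
  fun a j => (A ^ (a : ℕ)).mulVec (Pi.single (s j) 1)

/-- the conjugated matrix -/
noncomputable def cj {T : ℕ} (g : ℂ) (L : Matrix (HId T) (HId T) ℂ) :
    Matrix (HId T) (HId T) ℂ := L⁻¹ * core T g * L

/-- weights: `alpha = n⁻²⁰`, `beta = alpha / 2^(T+1)`, `n = T (T+1)²` -/
noncomputable def alphaW (T : ℕ) : ℝ := (1 / (Fintype.card (HId T) : ℝ)) ^ 20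
noncomputable def betaW (T : ℕ) : ℝ := alphaW T / 2 ^ (T + 1)

/-- entries of `L` and of `L⁻¹` are at most `n²` and `L` is invertible -/
def GoodL {T : ℕ} (L : Matrix (HId T) (HId T) ℂ) : Prop :=
  L.det ≠ 0 ∧ (∀ i j, ‖L i j‖ ≤ (Fintype.card (HId T) : ℝ) ^ 2) ∧
    (∀ i j, ‖(L⁻¹ : Matrix _ _ ℂ) i j‖ ≤ (Fintype.card (HId T) : ℝ) ^ 2)

/-- the nonadaptive view consists of linearly independent vectors -/
def Generic {ι : Type*} [Fintype ι] [DecidableEq ι] {T : ℕ} (s : Fin T → ι)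
    (A : Matrix ι ι ℂ) : Prop :=
  LinearIndependent ℂ (fun p : Fin (T + 1) × Fin T => NV s A p.1 p.2)

/-
PIECE I (target; to be proved in another file):

theorem gaussian_piece (T : ℕ) (hT : 10 ≤ T) :
    ∃ γ : Measure (Matrix (HId T) (HId T) ℂ), IsProbabilityMeasure γ ∧
      (∀ U ∈ Matrix.unitaryGroup (HId T) ℂ, γ.map (fun L => L * U) = γ) ∧
      γ {L | ¬ GoodL L} ≤ 1/20 ∧
      γ {L | ¬ Generic (st T) (cj (alphaW T) L)} ≤ 1/20 ∧
      γ {L | ¬ Generic (st T) (cj (betaW T) L)} ≤ 1/20 ∧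
      ∀ W : Set (Fin (T + 1) → Fin T → (HId T → ℂ)), MeasurableSet W →
        γ {L | NV (st T) (cj (alphaW T) L) ∈ W} ≤
          1/20 + (11/10) * γ {L | NV (st T) (cj (betaW T) L) ∈ W}
-/

/-- `n` further honest steps of a deterministic adaptive algorithm on the matrix `B`, starting at
time `t` with (zero padded) transcript `y`: the query at time `t` is `φ t y`. -/
def cont {ι : Type*} [Fintype ι] (φ : ℕ → (ℕ → ι → ℂ) → (ι → ℂ)) (B : Matrix ι ι ℂ) :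
    ℕ → ℕ → (ℕ → ι → ℂ) → (ℕ → ι → ℂ)
  | 0, _, y => y
  | n + 1, t, y => cont φ B n (t + 1) (Function.update y t (B.mulVec (φ t y)))

/-
PIECE II (helper634):

theorem simulation (T : ℕ) (s : Fin T → ι) (φ : ℕ → (ℕ → ι → ℂ) → (ι → ℂ))
    (hφ : ∀ t, Measurable (φ t)) :
    ∃ Ψ : (Fin (T + 1) → Fin T → (ι → ℂ)) → (ℕ → ι → ℂ), Measurable Ψ ∧
      ∀ ν : Measure (Matrix ι ι ℂ), IsFiniteMeasure ν →
        (∀ U ∈ Matrix.unitaryGroup ι ℂ, ν.map (fun A => U * A * star U) = ν) →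
        (∀ᵐ A ∂ν, Generic s A) →
        ν.map (fun A => cont φ A T 0 0) = ν.map (fun A => Ψ (NV s A))

COMBINATION of I and II (helper634):

theorem main_ineq (T : ℕ) (hT : 10 ≤ T) :
    ∃ γ : Measure (Matrix (HId T) (HId T) ℂ), IsProbabilityMeasure γ ∧
      γ {L | ¬ GoodL L} ≤ 1/20 ∧
      ∀ φ : ℕ → (ℕ → HId T → ℂ) → (HId T → ℂ), (∀ t, Measurable (φ t)) →
      ∀ E : Set (ℕ → HId T → ℂ), MeasurableSet E →
        γ {L | cont φ (cj (alphaW T) L) T 0 0 ∈ E} ≤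
          1/20 + (11/10) * γ {L | cont φ (cj (betaW T) L) T 0 0 ∈ E}
-/

/-- operator 2-norm of a matrix -/
noncomputable def opN {ι : Type*} [Fintype ι] [DecidableEq ι] (M : Matrix ι ι ℂ) : ℝ :=
  ‖Matrix.toEuclideanCLM (𝕜 := ℂ) M‖

/-
PIECE III (target; another file):

theorem kappa_piece (T : ℕ) (hT : 10 ≤ T) (L : Matrix (HId T) (HId T) ℂ) (hL : GoodL L) :
    ∃ (V : Matrix (HId T) (HId T) ℂ) (d : HId T → ℂ), IsUnit V ∧
      cj (alphaW T : ℂ) L = V * Matrix.diagonal d * V⁻¹ ∧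
      opN V * opN V⁻¹ ≤ (Fintype.card (HId T) : ℝ) ^ 40

theorem diag_piece (T : ℕ) (hT : 1 ≤ T) (g : ℝ) (hg : 0 < g)
    (L : Matrix (HId T) (HId T) ℂ) (hL : L.det ≠ 0) :
    ∃ (V : Matrix (HId T) (HId T) ℂ) (d : HId T → ℂ), IsUnit V ∧
      cj (g : ℂ) L = V * Matrix.diagonal d * V⁻¹

theorem eig_piece (T : ℕ) (g : ℝ) (hg : 0 ≤ g)
    (L : Matrix (HId T) (HId T) ℂ) (hL : L.det ≠ 0) (μ : ℂ) (v : HId T → ℂ) (hv : v ≠ 0)
    (h : (cj (g : ℂ) L).mulVec v = μ • v) : ‖μ‖ ^ (T + 1) = g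
-/

end Pool.Agent.Helper634.Matvec
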