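import Mathlib

namespace Pool.Agent.Helper634.Matvec

open MeasureTheory Set
open scoped ENNReal

/-- On a compact group, each closed subgroup carries a left invariant probability measure. -/
theorem exists_left_haar {G : Type*} [Group G] [TopologicalSpace G] [IsTopologicalGroup G]
    [CompactSpace G] [MeasurableSpace G] [BorelSpace G]
    (H : Subgroup G) (hH : IsClosed (H : Set G)) :
    ∃ η : Measure G, IsProbabilityMeasure η ∧ (∀ᵐ g ∂η, g ∈ H) ∧
      ∀ h ∈ H, η.map (fun g => h * g) = η := by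
  have : CompactSpace H := isCompact_iff_compactSpace.mp hH.isCompact
  let K₀ : TopologicalSpace.PositiveCompacts H :=
    { carrier := univ
      isCompact' := isCompact_univ
      interior_nonempty' := by simp }
  let μ : Measure H := Measure.haarMeasure K₀
  have hμ : IsProbabilityMeasure μ := ⟨by
    have := Measure.haarMeasure_self (K₀ := K₀)
    exact this⟩
  have hmeas : Measurable (Subtype.val : H → G) := measurable_subtype_coe
  refine ⟨μ.map Subtype.val, Measure.isProbabilityMeasure_map hmeas.aemeasurable, ?_, ?_⟩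
  · have h0 : MeasurableSet {g : G | g ∈ H} := hH.measurableSet
    rw [ae_map_iff hmeas.aemeasurable h0]
    exact Filter.Eventually.of_forall fun x => x.2
  · intro h hh
    have hm : Measurable (fun g : G => h * g) := (continuous_const_mul h).measurable
    rw [Measure.map_map hm hmeas]
    have : (fun g : G => h * g) ∘ (Subtype.val : H → G) =
        Subtype.val ∘ (fun g : H => (⟨h, hh⟩ : H) * g) := by
      ext g; simp
    rw [this, ← Measure.map_map hmeas (continuous_const_mul _).measurable]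
    have h2 : μ.map (fun g : H => (⟨h, hh⟩ : H) * g) = μ :=
      map_mul_left_eq_self μ ⟨h, hh⟩
    rw [h2]

theorem exists_right_haar {G : Type*} [Group G] [TopologicalSpace G] [IsTopologicalGroup G]
    [CompactSpace G] [MeasurableSpace G] [BorelSpace G]
    (H : Subgroup G) (hH : IsClosed (H : Set G)) :
    ∃ η : Measure G, IsProbabilityMeasure η ∧ (∀ᵐ g ∂η, g ∈ H) ∧
      ∀ h ∈ H, η.map (fun g => g * h) = η := by
  obtain ⟨η, h1, h2, h3⟩ := exists_left_haar H hH
  have hinv : Measurable (fun g : G => g⁻¹) := continuous_inv.measurable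
  refine ⟨η.map (fun g => g⁻¹), Measure.isProbabilityMeasure_map hinv.aemeasurable, ?_, ?_⟩
  · have h0 : MeasurableSet {g : G | g ∈ H} := hH.measurableSet
    rw [ae_map_iff hinv.aemeasurable h0]
    filter_upwards [h2] with g hg using H.inv_mem hg
  · intro h hh
    have hm : Measurable (fun g : G => g * h) := (continuous_mul_const h).measurable
    rw [Measure.map_map hm hinv]
    have : (fun g : G => g * h) ∘ (fun g : G => g⁻¹) = (fun g : G => g⁻¹) ∘ (fun g => h⁻¹ * g) := by
      ext g; simp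
    rw [this, ← Measure.map_map hinv (continuous_const_mul _).measurable,
      h3 h⁻¹ (H.inv_mem hh)]

/-- **Group averaging lemma.**  A compact group `G` with a closed subgroup `K` acting on a measure
space `X` preserving `ν`; an equivariant view `V : X → Y`; a measurable choice `Q : Y → G` of
elements of `K` stabilising the view.  Then `x ↦ Q (V x) • x` preserves `ν`. -/
theorem map_stabiliser {G X Y : Type*} [Group G] [TopologicalSpace G] [IsTopologicalGroup G]
    [CompactSpace G] [SecondCountableTopology G] [MeasurableSpace G] [BorelSpace G]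
    [MeasurableSpace X] [MeasurableSpace Y]
    (aX : G → X → X) (aXmul : ∀ g h x, aX (g * h) x = aX g (aX h x))
    (aY : G → Y → Y) (aYone : ∀ y, aY 1 y = y) (aYmul : ∀ g h y, aY (g * h) y = aY g (aY h y))
    (hact : Measurable fun p : G × X => aX p.1 p.2)
    (hactY : ∀ y : Y, Measurable fun g : G => aY g y)
    (K : Subgroup G) (hK : IsClosed (K : Set G))
    (hst : ∀ y : Y, IsClosed {g : G | aY g y = y})
    (ν : Measure X) [SFinite ν] (hν : ∀ g ∈ K, ν.map (fun x => aX g x) = ν)
    (V : X → Y) (hV : Measurable V) (hVe : ∀ g ∈ K, ∀ x, V (aX g x) = aY g (V x))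
    (Q : Y → G) (hQ : Measurable Q) (hQK : ∀ y, Q y ∈ K) (hQs : ∀ y, aY (Q y) y = y) :
    ν.map (fun x => aX (Q (V x)) x) = ν := by
  obtain ⟨κ, hκ1, hκ2, hκ3⟩ := exists_right_haar K hK
  have hG : ∀ g : G, Measurable (fun x : X => aX g x) := fun g =>
    hact.comp (measurable_const.prodMk measurable_id)
  have hmap : Measurable (fun x => aX (Q (V x)) x) :=
    hact.comp ((hQ.comp hV).prodMk measurable_id)
  refine Measure.ext_of_lintegral _ fun f hf => ?_
  rw [lintegral_map hf hmap]
  -- Step 1: average over `κ`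
  have step1 : ∀ F : X → ℝ≥0∞, Measurable F →
      ∫⁻ x, F x ∂ν = ∫⁻ x, ∫⁻ g, F (aX g x) ∂κ ∂ν := by
    intro F hF
    have e1 : ∫⁻ g, ∫⁻ x, F (aX g x) ∂ν ∂κ = ∫⁻ x, F x ∂ν := by
      have : ∫⁻ g, ∫⁻ x, F (aX g x) ∂ν ∂κ = ∫⁻ g, ∫⁻ x, F x ∂ν ∂κ := by
        refine lintegral_congr_ae ?_
        filter_upwards [hκ2] with g hg
        conv_rhs => rw [← hν g hg]
        rw [lintegral_map hF (hG g)]
      rw [this]; simp
    rw [← e1, lintegral_lintegral_swap]
    exact (hF.comp hact).aemeasurable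
  rw [step1 (fun x => f (aX (Q (V x)) x)) (hf.comp hmap), step1 f hf]
  refine lintegral_congr fun x => ?_
  -- now fix `x`, `v = V x`
  set v := V x with hv
  have aYinv : ∀ g y, aY g y = y → aY g⁻¹ y = y := by
    intro g y h
    calc aY g⁻¹ y = aY g⁻¹ (aY g y) := by rw [h]
      _ = y := by rw [← aYmul, inv_mul_cancel, aYone]
  let S : Subgroup G :=
    { carrier := {g | g ∈ K ∧ aY g v = v}
      mul_mem' := by
        rintro a b ⟨ha, ha'⟩ ⟨hb, hb'⟩
        exact ⟨K.mul_mem ha hb, by rw [aYmul, hb', ha']⟩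
      one_mem' := ⟨K.one_mem, aYone _⟩
      inv_mem' := by
        rintro a ⟨ha, ha'⟩
        exact ⟨K.inv_mem ha, aYinv _ _ ha'⟩ }
  have hS : IsClosed (S : Set G) := hK.inter (hst v)
  obtain ⟨σ, hσ1, hσ2, hσ3⟩ := exists_left_haar S hS
  have e0 : ∫⁻ g, f (aX (Q (V (aX g x))) (aX g x)) ∂κ = ∫⁻ g, f (aX (Q (aY g v) * g) x) ∂κ := by
    refine lintegral_congr_ae ?_
    filter_upwards [hκ2] with g hg
    rw [hVe g hg, aXmul]
  rw [e0]
  -- the function `F g = f (g • x)`
  have hF : Measurable fun g : G => f (aX g x) :=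
    hf.comp (hact.comp (measurable_id.prodMk measurable_const))
  have hFQ : Measurable fun g : G => f (aX (Q (aY g v) * g) x) := by
    have h1 : Measurable fun g : G => Q (aY g v) * g := (hQ.comp (hactY v)).mul measurable_id
    exact hF.comp h1
  have right : ∀ F : G → ℝ≥0∞, Measurable F → ∀ s ∈ K, ∫⁻ g, F (g * s) ∂κ = ∫⁻ g, F g ∂κ := by
    intro F hF s hs
    conv_rhs => rw [← hκ3 s hs]
    rw [lintegral_map hF (continuous_mul_const s).measurable]
  have e1 : ∫⁻ g, f (aX (Q (aY g v) * g) x) ∂κ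
      = ∫⁻ s, ∫⁻ g, f (aX (Q (aY g v) * (g * s)) x) ∂κ ∂σ := by
    have : ∫⁻ s, ∫⁻ g, f (aX (Q (aY g v) * (g * s)) x) ∂κ ∂σ
        = ∫⁻ s, ∫⁻ g, f (aX (Q (aY g v) * g) x) ∂κ ∂σ := by
      refine lintegral_congr_ae ?_
      filter_upwards [hσ2] with s hs
      rw [← right _ hFQ s hs.1]
      refine lintegral_congr fun g => ?_
      rw [aYmul g s v, hs.2]
    rw [this]; simp
  have e2 : ∫⁻ g, f (aX g x) ∂κ = ∫⁻ s, ∫⁻ g, f (aX (g * s) x) ∂κ ∂σ := by
    have : ∫⁻ s, ∫⁻ g, f (aX (g * s) x) ∂κ ∂σ = ∫⁻ s, ∫⁻ g, f (aX g x) ∂κ ∂σ := by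
      refine lintegral_congr_ae ?_
      filter_upwards [hσ2] with s hs
      exact right _ hF s hs.1
    rw [this]; simp
  have m1 : AEMeasurable (Function.uncurry fun s g : G => f (aX (g * s) x)) (σ.prod κ) :=
    (hF.comp (measurable_snd.mul measurable_fst)).aemeasurable
  have m2 : AEMeasurable (Function.uncurry fun s g : G => f (aX (Q (aY g v) * (g * s)) x))
      (σ.prod κ) := by
    have : Measurable fun p : G × G => (Q (aY p.2 v) * (p.2 * p.1)) :=
      ((hQ.comp (hactY v)).comp measurable_snd).mul (measurable_snd.mul measurable_fst)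
    exact (hF.comp this).aemeasurable
  rw [e1, e2, lintegral_lintegral_swap m1, lintegral_lintegral_swap m2]
  refine lintegral_congr_ae ?_
  filter_upwards [hκ2] with g hg
  -- `Q (g v) g = g s₀`
  set s₀ : G := g⁻¹ * Q (aY g v) * g with hs₀
  have hs₀S : s₀ ∈ S := by
    refine ⟨K.mul_mem (K.mul_mem (K.inv_mem hg) (hQK _)) hg, ?_⟩
    rw [hs₀, aYmul, aYmul, hQs, ← aYmul, inv_mul_cancel, aYone]
  have : ∀ s, aX (Q (aY g v) * (g * s)) x = aX (g * (s₀ * s)) x := by
    intro s
    congr 1
    rw [hs₀]; group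
  simp_rw [this]
  have h3 : ∫⁻ s, f (aX (g * (s₀ * s)) x) ∂σ
      = ∫⁻ s, f (aX (g * s) x) ∂(σ.map (fun s => s₀ * s)) := by
    rw [lintegral_map _ (continuous_const_mul s₀).measurable]
    exact hF.comp (continuous_const_mul g).measurable
  rw [h3, hσ3 s₀ hs₀S]

end Pool.Agent.Helper634.Matvec
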