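import Pool.Agent.Helper634.Matvec.Defs

namespace Pool.Agent.Helper634.Matvec

open MeasureTheory Matrix
open scoped ENNReal ComplexOrder

set_option linter.unusedSectionVars false

section basics

variable {ι κ : Type*} [Fintype ι] [Fintype κ] [DecidableEq ι] [DecidableEq κ]

instance instBorelMatrix : BorelSpace (Matrix ι κ ℂ) := inferInstanceAs (BorelSpace (ι → κ → ℂ))

instance instSCMatrix : SecondCountableTopology (Matrix ι κ ℂ) :=
  inferInstanceAs (SecondCountableTopology (ι → κ → ℂ))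

instance instCompactUnitary : CompactSpace (Matrix.unitaryGroup ι ℂ) := by
  have hc : IsCompact (Matrix.unitaryGroup ι ℂ : Set (Matrix ι ι ℂ)) := ?_
  · exact isCompact_iff_compactSpace.mp hc
  have hcl : IsClosed ((Matrix.unitaryGroup ι ℂ : Set (Matrix ι ι ℂ))) := by
    have : ((Matrix.unitaryGroup ι ℂ : Set (Matrix ι ι ℂ))) = {A | A * star A = 1} := by
      ext A
      simp [Matrix.mem_unitaryGroup_iff]
    rw [this]
    exact isClosed_eq (continuous_id.mul continuous_star) continuous_const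
  have hK : IsCompact (Set.pi Set.univ (fun _ : ι => Set.pi Set.univ
      (fun _ : ι => Metric.closedBall (0 : ℂ) 1)) : Set (ι → ι → ℂ)) :=
    isCompact_univ_pi fun _ => isCompact_univ_pi fun _ => isCompact_closedBall _ _
  refine IsCompact.of_isClosed_subset hK hcl ?_
  intro A hA i _ j _
  simp only [Metric.mem_closedBall, dist_zero_right]
  exact entry_norm_bound_of_unitary hA i j

theorem measurable_inv_matrix : Measurable (fun A : Matrix ι ι ℂ => A⁻¹) := by
  have : (fun A : Matrix ι ι ℂ => A⁻¹) = fun A => (A.det)⁻¹ • A.adjugate := by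
    funext A
    rw [Matrix.inv_def, Ring.inverse_eq_inv']
  rw [this]
  have h1 : Measurable (fun A : Matrix ι ι ℂ => (A.det)⁻¹) :=
    (continuous_id.matrix_det).measurable.inv
  have h2 : Measurable (fun A : Matrix ι ι ℂ => A.adjugate) :=
    (continuous_id.matrix_adjugate).measurable
  exact h1.smul h2

end basics

section canon

variable {ι κ κ' : Type*} [Fintype ι] [Fintype κ] [DecidableEq ι] [DecidableEq κ]
  [Fintype κ'] [DecidableEq κ']

/-- the matrix mapping column `k` of `W0` to column `k` of `W1`, zero on the complement -/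
noncomputable def canon (W0 W1 : Matrix ι κ ℂ) : Matrix ι ι ℂ := W1 * (W0ᴴ * W0)⁻¹ * W0ᴴ

theorem canon_mul (W0 W1 : Matrix ι κ ℂ) (h : IsUnit (W0ᴴ * W0).det) :
    canon W0 W1 * W0 = W1 := by
  rw [canon, Matrix.mul_assoc, Matrix.mul_assoc, Matrix.nonsing_inv_mul _ h, Matrix.mul_one]

theorem gram_isUnit (W : Matrix ι κ ℂ) (h : LinearIndependent ℂ (fun k => Wᵀ k)) :
    IsUnit (Wᴴ * W).det := by
  rw [← Matrix.isUnit_iff_isUnit_det, ← Matrix.mulVec_injective_iff_isUnit]
  have hinj : Function.Injective W.mulVec := Matrix.mulVec_injective_iff.mpr h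
  intro x y hxy
  have : (Wᴴ * W) *ᵥ (x - y) = 0 := by
    rw [Matrix.mulVec_sub]; exact sub_eq_zero.mpr hxy
  rw [Matrix.conjTranspose_mul_self_mulVec_eq_zero] at this
  have h2 : W *ᵥ (x - y) = W *ᵥ 0 := by rw [this, Matrix.mulVec_zero]
  exact sub_eq_zero.mp (hinj h2)

/-- `∑ ‖v i‖²` -/
noncomputable def sq (v : ι → ℂ) : ℝ := ∑ i, ‖v i‖ ^ 2

theorem star_dot_self (v : ι → ℂ) : star v ⬝ᵥ v = (sq v : ℂ) := by
  simp only [dotProduct, sq, Pi.star_apply, RCLike.star_def, Complex.ofReal_sum,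
    Complex.ofReal_pow]
  refine Finset.sum_congr rfl fun i _ => ?_
  rw [Complex.conj_mul']

theorem sq_pos {v : ι → ℂ} (hv : v ≠ 0) : 0 < sq v := by
  obtain ⟨i, hi⟩ := Function.ne_iff.mp hv
  refine Finset.sum_pos' (fun _ _ => by positivity) ⟨i, Finset.mem_univ _, ?_⟩
  have : 0 < ‖v i‖ := norm_pos_iff.mpr hi
  positivity

/-- normalisation -/
noncomputable def nrm (v : ι → ℂ) : ι → ℂ := ((Real.sqrt (sq v) : ℝ) : ℂ)⁻¹ • v

theorem nrm_unit {v : ι → ℂ} (hv : v ≠ 0) : star (nrm v) ⬝ᵥ nrm v = 1 := by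
  have h1 : 0 < Real.sqrt (sq v) := Real.sqrt_pos.mpr (sq_pos hv)
  have h2 : ((Real.sqrt (sq v) : ℝ) : ℂ) ≠ 0 := by exact_mod_cast h1.ne'
  rw [nrm, star_smul, smul_dotProduct, dotProduct_smul, star_dot_self]
  simp only [star_inv₀, RCLike.star_def, Complex.conj_ofReal, smul_eq_mul]
  field_simp
  have h3 : Real.sqrt (sq v) ^ 2 = sq v := Real.sq_sqrt (sq_pos hv).le
  exact_mod_cast h3.symm

theorem smul_nrm (v : ι → ℂ) : ((Real.sqrt (sq v) : ℝ) : ℂ) • nrm v = v := by
  by_cases hv : v = 0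
  · subst hv; simp [nrm]
  · have h1 : 0 < Real.sqrt (sq v) := Real.sqrt_pos.mpr (sq_pos hv)
    have h2 : ((Real.sqrt (sq v) : ℝ) : ℂ) ≠ 0 := by exact_mod_cast h1.ne'
    rw [nrm, smul_smul, mul_inv_cancel₀ h2, one_smul]

/-- complex Householder matrix mapping the unit vector `a` to the unit vector `b` -/
noncomputable def hous (a b : ι → ℂ) : Matrix ι ι ℂ :=
  1 - (star (a - b) ⬝ᵥ a)⁻¹ • vecMulVec (a - b) (star (a - b))

theorem hous_mulVec (a b x : ι → ℂ) :
    hous a b *ᵥ x = x - ((star (a - b) ⬝ᵥ a)⁻¹ * (star (a - b) ⬝ᵥ x)) • (a - b) := by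
  rw [hous, Matrix.sub_mulVec, Matrix.one_mulVec, Matrix.smul_mulVec, vecMulVec_mulVec,
    ← smul_smul]
  congr 2
  ext i
  simp [mul_comm]

theorem hous_fix {a b x : ι → ℂ} (ha : star a ⬝ᵥ x = 0) (hb : star b ⬝ᵥ x = 0) :
    hous a b *ᵥ x = x := by
  have h : star (a - b) ⬝ᵥ x = 0 := by rw [star_sub, sub_dotProduct, ha, hb, sub_zero]
  rw [hous_mulVec, h]
  simp

theorem tau_zero {a b : ι → ℂ} (ha : star a ⬝ᵥ a = 1) (hb : star b ⬝ᵥ b = 1)
    (h : star (a - b) ⬝ᵥ a = 0) : a = b := by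
  have h1 : star b ⬝ᵥ a = 1 := by
    rw [star_sub, sub_dotProduct, ha] at h
    exact (sub_eq_zero.mp h).symm
  have h2 : star a ⬝ᵥ b = 1 := by
    have := congrArg star h1
    rw [star_dotProduct, star_star, star_one] at this
    rw [← this, dotProduct_comm]
  have h3 : star (a - b) ⬝ᵥ (a - b) = 0 := by
    rw [star_sub, sub_dotProduct, dotProduct_sub, dotProduct_sub, ha, hb, h1, h2]; ring
  exact sub_eq_zero.mp (dotProduct_star_self_eq_zero.mp h3)

theorem hous_map {a b : ι → ℂ} (ha : star a ⬝ᵥ a = 1) (hb : star b ⬝ᵥ b = 1) :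
    hous a b *ᵥ a = b := by
  rw [hous_mulVec]
  by_cases h : star (a - b) ⬝ᵥ a = 0
  · rw [tau_zero ha hb h]; simp
  · rw [inv_mul_cancel₀ h]; simp

theorem hous_unitary {a b : ι → ℂ} (ha : star a ⬝ᵥ a = 1) (hb : star b ⬝ᵥ b = 1) :
    hous a b ∈ Matrix.unitaryGroup ι ℂ := by
  rw [Matrix.mem_unitaryGroup_iff]
  by_cases h : star (a - b) ⬝ᵥ a = 0
  · rw [hous, tau_zero ha hb h]; simp
  set τ := star (a - b) ⬝ᵥ a with hτ
  set w := a - b with hw
  have h1 : star τ = 1 - star a ⬝ᵥ b := by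
    rw [hτ, hw, star_dotProduct, star_star, dotProduct_sub, ha]
  have h1' : τ = 1 - star b ⬝ᵥ a := by
    rw [hτ, hw, star_sub, sub_dotProduct, ha]
  have hww : star w ⬝ᵥ w = τ + star τ := by
    rw [h1, h1', hw, star_sub, sub_dotProduct, dotProduct_sub, dotProduct_sub, ha, hb]; ring
  have hτs : star τ ≠ 0 := by simpa using h
  have hst : star (hous a b) = 1 - (star τ)⁻¹ • vecMulVec w (star w) := by
    rw [hous, star_sub, star_one, star_smul, star_inv₀]
    congr 2
    ext i j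
    simp only [Matrix.star_apply, vecMulVec_apply, star_mul', Pi.star_apply, star_star, mul_comm, hw]
  rw [hst, hous]
  have hmul : vecMulVec w (star w) * vecMulVec w (star w) = (star w ⬝ᵥ w) • vecMulVec w (star w) := by
    rw [vecMulVec_mul_vecMulVec]
    ext i j
    simp [vecMulVec_apply]
    ring
  rw [sub_mul, mul_sub, mul_sub, smul_mul_smul_comm, hmul, hww, one_mul, mul_one, one_mul,
    smul_smul]
  have hc : τ⁻¹ * (star τ)⁻¹ * (τ + star τ) = (star τ)⁻¹ + τ⁻¹ := by
    field_simp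
  rw [hc, add_smul]
  abel

end canon

end Pool.Agent.Helper634.Matvec
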