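import Pool.Agent.Helper634.Matvec.Sim2

namespace Pool.Agent.Helper634.Matvec

open MeasureTheory Matrix
open scoped ENNReal ComplexOrder

set_option linter.unusedSectionVars false

/-- the conclusion of piece I for a given `T` -/
def GaussianPiece (T : ℕ) : Prop :=
  ∃ γ : Measure (Matrix (HId T) (HId T) ℂ), IsProbabilityMeasure γ ∧
      (∀ U ∈ Matrix.unitaryGroup (HId T) ℂ, γ.map (fun L => L * U) = γ) ∧
      γ {L | ¬ GoodL L} ≤ 1/20 ∧
      (∀ᵐ L ∂γ, Generic (st T) (cj (alphaW T) L)) ∧
      (∀ᵐ L ∂γ, Generic (st T) (cj (betaW T) L)) ∧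
      ∀ W : Set (Fin (T + 1) → Fin T → (HId T → ℂ)), MeasurableSet W →
        γ {L | NV (st T) (cj (alphaW T) L) ∈ W} ≤
          1/20 + (11/10) * γ {L | NV (st T) (cj (betaW T) L) ∈ W}

/-- the main inequality -/
def MainIneq (T : ℕ) : Prop :=
  ∃ γ : Measure (Matrix (HId T) (HId T) ℂ), IsProbabilityMeasure γ ∧
      γ {L | ¬ GoodL L} ≤ 1/20 ∧
      ∀ φ : ℕ → (ℕ → HId T → ℂ) → (HId T → ℂ), (∀ t, Measurable (φ t)) →
      ∀ E : Set (ℕ → HId T → ℂ), MeasurableSet E →
        γ {L | cont φ (cj (alphaW T) L) T 0 0 ∈ E} ≤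
          1/20 + (11/10) * γ {L | cont φ (cj (betaW T) L) T 0 0 ∈ E}

theorem meas_cj {T : ℕ} (g : ℂ) : Measurable (cj g : Matrix (HId T) (HId T) ℂ → _) :=
  meas_mul (meas_mul measurable_inv_matrix measurable_const) measurable_id

theorem cj_conj {T : ℕ} (g : ℂ) (L U : Matrix (HId T) (HId T) ℂ)
    (hU : U ∈ Matrix.unitaryGroup (HId T) ℂ) :
    U * cj g L * star U = cj g (L * star U) := by
  have h1 : (star U)⁻¹ = U := by
    apply Matrix.inv_eq_right_inv
    exact Matrix.mem_unitaryGroup_iff'.mp hU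
  unfold cj
  rw [Matrix.mul_inv_rev, h1]
  simp only [Matrix.mul_assoc]

theorem meas_NV {ι : Type*} [Fintype ι] [DecidableEq ι] {T : ℕ} (s : Fin T → ι) :
    Measurable (NV s : Matrix ι ι ℂ → _) := by
  refine measurable_pi_iff.mpr fun a => measurable_pi_iff.mpr fun j => ?_
  exact meas_mulVec ((continuous_id.pow (a : ℕ)).measurable) measurable_const

theorem law_eq {T : ℕ} (γ : Measure (Matrix (HId T) (HId T) ℂ)) [IsProbabilityMeasure γ]
    (hγ : ∀ U ∈ Matrix.unitaryGroup (HId T) ℂ, γ.map (fun L => L * U) = γ) (g : ℂ)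
    (hgen : ∀ᵐ L ∂γ, Generic (st T) (cj g L))
    (φ : ℕ → (ℕ → HId T → ℂ) → (HId T → ℂ)) (hφ : ∀ t, Measurable (φ t))
    (Ψ : (Fin (T + 1) → Fin T → (HId T → ℂ)) → (ℕ → HId T → ℂ)) (hΨ : Measurable Ψ)
    (h : ∀ ν : Measure (Matrix (HId T) (HId T) ℂ), IsFiniteMeasure ν →
        (∀ U ∈ Matrix.unitaryGroup (HId T) ℂ, ν.map (fun A => U * A * star U) = ν) →
        (∀ᵐ A ∂ν, Generic (st T) A) →
        ν.map (fun A => cont φ A T 0 0) = ν.map (fun A => Ψ (NV (st T) A)))
    (E : Set (ℕ → HId T → ℂ)) (hE : MeasurableSet E) :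
    γ {L | cont φ (cj g L) T 0 0 ∈ E} = γ {L | NV (st T) (cj g L) ∈ Ψ ⁻¹' E} := by
  have hcj := meas_cj (T := T) g
  have m1 : Measurable fun A : Matrix (HId T) (HId T) ℂ => cont φ A T 0 0 :=
    (meas_cont φ hφ T 0).comp (measurable_id.prodMk measurable_const)
  have m2 : Measurable fun A : Matrix (HId T) (HId T) ℂ => Ψ (NV (st T) A) :=
    hΨ.comp (meas_NV _)
  have hinv : ∀ U ∈ Matrix.unitaryGroup (HId T) ℂ,
      (γ.map (cj g)).map (fun A => U * A * star U) = γ.map (cj g) := by
    intro U hU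
    have mU : Measurable fun A : Matrix (HId T) (HId T) ℂ => U * A * star U :=
      meas_mul (meas_mul measurable_const measurable_id) measurable_const
    have mL : Measurable fun A : Matrix (HId T) (HId T) ℂ => A * star U :=
      meas_mul measurable_id measurable_const
    rw [Measure.map_map mU hcj]
    have : (fun A => U * A * star U) ∘ cj g = cj g ∘ fun L => L * star U := by
      funext L
      exact cj_conj g L U hU
    rw [this, ← Measure.map_map hcj mL]
    have hsU : star U ∈ Matrix.unitaryGroup (HId T) ℂ := Unitary.star_mem hU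
    rw [hγ _ hsU]
  have hgen' : ∀ᵐ A ∂(γ.map (cj g)), Generic (st T) A := by
    have hms : MeasurableSet {A : Matrix (HId T) (HId T) ℂ | Generic (st T) A} := by
      -- linear independence is `det (Gram) ≠ 0`
      let W : Matrix (HId T) (HId T) ℂ → Matrix (HId T) (Fin (T + 1) × Fin T) ℂ :=
        fun A i p => NV (st T) A p.1 p.2 i
      have hW : Measurable W := by
        refine measurable_pi_iff.mpr fun i => measurable_pi_iff.mpr fun p => ?_
        exact (measurable_pi_apply i).comp ((measurable_pi_apply p.2).comp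
          ((measurable_pi_apply p.1).comp (meas_NV (st T))))
      have hset : {A : Matrix (HId T) (HId T) ℂ | Generic (st T) A} =
          {A | ((W A)ᴴ * W A).det ≠ 0} := by
        ext A
        constructor
        · intro hA
          exact (gram_isUnit (W A) hA).ne_zero
        · intro hA
          have h1 : IsUnit ((W A)ᴴ * W A) :=
            (Matrix.isUnit_iff_isUnit_det _).mpr (Ne.isUnit hA)
          have h2 : Function.Injective ((W A)ᴴ * W A).mulVec :=
            Matrix.mulVec_injective_iff_isUnit.mpr h1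
          have h3 : Function.Injective (W A).mulVec := by
            intro x y hxy
            apply h2
            rw [← Matrix.mulVec_mulVec, ← Matrix.mulVec_mulVec, hxy]
          exact Matrix.mulVec_injective_iff.mp h3
      rw [hset]
      have hd : Measurable fun A => ((W A)ᴴ * W A).det :=
        (continuous_id.matrix_det).measurable.comp (meas_mul (meas_conj hW) hW)
      exact (measurableSet_eq_fun hd measurable_const).compl
    rw [ae_map_iff hcj.aemeasurable hms]
    exact hgen
  have : IsProbabilityMeasure (γ.map (cj g)) := Measure.isProbabilityMeasure_map hcj.aemeasurable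
  have key := h (γ.map (cj g)) inferInstance hinv hgen'
  have k2 : (γ.map (cj g)).map (fun A => cont φ A T 0 0) E
      = (γ.map (cj g)).map (fun A => Ψ (NV (st T) A)) E := by rw [key]
  rw [Measure.map_apply m1 hE, Measure.map_apply m2 hE, Measure.map_apply hcj (m1 hE),
    Measure.map_apply hcj (m2 hE)] at k2
  exact k2

theorem mainIneq_of_gaussian (T : ℕ) (h : GaussianPiece T) : MainIneq T := by
  obtain ⟨γ, hp, hinv, hgood, hgα, hgβ, hcmp⟩ := h
  refine ⟨γ, hp, hgood, fun φ hφ E hE => ?_⟩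
  obtain ⟨Ψ, hΨ, hsim⟩ := simulation T (st T) φ hφ
  rw [law_eq γ hinv _ hgα φ hφ Ψ hΨ hsim E hE, law_eq γ hinv _ hgβ φ hφ Ψ hΨ hsim E hE]
  exact hcmp _ (hΨ hE)

end Pool.Agent.Helper634.Matvec
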