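import Pool.Agent.Helper634.Matvec.Lin

namespace Pool.Agent.Helper634.Matvec

open MeasureTheory Matrix
open scoped ENNReal ComplexOrder

set_option linter.unusedSectionVars false

section meas

variable {X : Type*} [MeasurableSpace X]
variable {ι κ κ' : Type*} [Fintype ι] [Fintype κ] [DecidableEq ι] [DecidableEq κ]
  [Fintype κ'] [DecidableEq κ']

theorem meas_mul {f : X → Matrix ι κ ℂ} {g : X → Matrix κ κ' ℂ} (hf : Measurable f)
    (hg : Measurable g) : Measurable fun x => f x * g x :=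
  ((continuous_fst.matrix_mul continuous_snd :
    Continuous fun p : Matrix ι κ ℂ × Matrix κ κ' ℂ => p.1 * p.2).measurable).comp (hf.prodMk hg)

theorem meas_mulVec {f : X → Matrix ι κ ℂ} {g : X → (κ → ℂ)} (hf : Measurable f)
    (hg : Measurable g) : Measurable fun x => f x *ᵥ g x :=
  ((continuous_fst.matrix_mulVec continuous_snd :
    Continuous fun p : Matrix ι κ ℂ × (κ → ℂ) => p.1 *ᵥ p.2).measurable).comp (hf.prodMk hg)

theorem meas_conj {f : X → Matrix ι κ ℂ} (hf : Measurable f) : Measurable fun x => (f x)ᴴ :=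
  ((continuous_id.matrix_conjTranspose :
    Continuous fun p : Matrix ι κ ℂ => pᴴ).measurable).comp hf

theorem meas_star {f : X → Matrix ι ι ℂ} (hf : Measurable f) : Measurable fun x => star (f x) :=
  (continuous_star.measurable).comp hf

theorem meas_canon {f g : X → Matrix ι κ ℂ} (hf : Measurable f) (hg : Measurable g) :
    Measurable fun x => canon (f x) (g x) :=
  meas_mul (meas_mul hg (measurable_inv_matrix.comp (meas_mul (meas_conj hf) hf))) (meas_conj hf)

theorem meas_dot {f g : X → (ι → ℂ)} (hf : Measurable f) (hg : Measurable g) :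
    Measurable fun x => f x ⬝ᵥ g x := by
  unfold dotProduct
  exact Finset.measurable_sum _ fun i _ =>
    ((measurable_pi_apply i).comp hf).mul ((measurable_pi_apply i).comp hg)

theorem meas_starv {f : X → (ι → ℂ)} (hf : Measurable f) : Measurable fun x => star (f x) :=
  (continuous_star.measurable).comp hf

theorem meas_nrm {f : X → (ι → ℂ)} (hf : Measurable f) : Measurable fun x => nrm (f x) := by
  unfold nrm
  have h1 : Measurable fun x => sq (f x) := by
    unfold sq
    exact Finset.measurable_sum _ fun i _ => (((measurable_pi_apply i).comp hf).norm).pow_const 2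
  have h2 : Measurable fun x => ((Real.sqrt (sq (f x)) : ℝ) : ℂ)⁻¹ :=
    (Complex.measurable_ofReal.comp h1.sqrt).inv
  exact h2.smul hf

theorem meas_vecMulVec {f : X → (ι → ℂ)} {g : X → (κ → ℂ)} (hf : Measurable f)
    (hg : Measurable g) : Measurable fun x => vecMulVec (f x) (g x) := by
  refine measurable_pi_iff.mpr fun i => measurable_pi_iff.mpr fun j => ?_
  exact ((measurable_pi_apply i).comp hf).mul ((measurable_pi_apply j).comp hg)

theorem meas_hous {f g : X → (ι → ℂ)} (hf : Measurable f) (hg : Measurable g) :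
    Measurable fun x => hous (f x) (g x) := by
  unfold hous
  have h1 := meas_starv (hf.sub hg)
  have h2 : Measurable fun x => (star (f x - g x) ⬝ᵥ f x)⁻¹ := (meas_dot h1 hf).inv
  have h3 : Measurable fun x => vecMulVec (f x - g x) (star (f x - g x)) :=
    meas_vecMulVec (hf.sub hg) h1
  exact measurable_const.sub (h2.smul h3)

end meas

section qsel

variable {ι κ κ' : Type*} [Fintype ι] [Fintype κ] [DecidableEq ι] [DecidableEq κ]
  [Fintype κ'] [DecidableEq κ']

/-- component orthogonal to the columns of `W` -/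
noncomputable def perp (W : Matrix ι κ ℂ) (x : ι → ℂ) : ι → ℂ := x - canon W W *ᵥ x

theorem perp_orth (W : Matrix ι κ ℂ) (h : IsUnit (Wᴴ * W).det) (x : ι → ℂ) :
    Wᴴ *ᵥ perp W x = 0 := by
  rw [perp, Matrix.mulVec_sub, Matrix.mulVec_mulVec, canon, ← Matrix.mul_assoc, ← Matrix.mul_assoc,
    Matrix.mul_nonsing_inv _ h, Matrix.one_mul, sub_self]

theorem perp_eq (W : Matrix ι κ ℂ) (x : ι → ℂ) :
    x = W *ᵥ (((Wᴴ * W)⁻¹ * Wᴴ) *ᵥ x) + perp W x := by
  rw [perp, canon, Matrix.mulVec_mulVec, Matrix.mul_assoc]; abel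

noncomputable def hfun (W : Matrix ι κ ℂ) (e p : ι → ℂ) : Matrix ι ι ℂ :=
  hous (nrm (perp W e)) (nrm (perp W p))

theorem nrm_orth (W : Matrix ι κ ℂ) (h : IsUnit (Wᴴ * W).det) (x : ι → ℂ) (k : κ) :
    star (nrm (perp W x)) ⬝ᵥ (fun i => W i k) = 0 := by
  have h1 : star (fun i => W i k) ⬝ᵥ perp W x = 0 := by
    have := congrFun (perp_orth W h x) k
    simpa [Matrix.mulVec, Matrix.conjTranspose, dotProduct] using this
  have h2 : star (perp W x) ⬝ᵥ (fun i => W i k) = 0 := by
    have := congrArg star h1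
    rw [star_dotProduct, star_star, star_zero] at this
    rw [dotProduct_comm]; rw [← this, dotProduct_comm]
  rw [nrm, star_smul, smul_dotProduct, h2, smul_zero]

theorem hfun_mul (W : Matrix ι κ ℂ) (h : IsUnit (Wᴴ * W).det) (e p : ι → ℂ) :
    hfun W e p * W = W := by
  ext i k
  have h1 := hous_fix (nrm_orth W h e k) (nrm_orth W h p k)
  have h2 := congrFun h1 i
  rw [Matrix.mul_apply]
  exact h2

open Classical in
/-- measurable selection of a unitary stabilising the columns of `W` and `W'` -/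
noncomputable def Qsel (W : Matrix ι κ ℂ) (W' : Matrix ι κ' ℂ) (e p : ι → ℂ) :
    Matrix.unitaryGroup ι ℂ :=
  if h : hfun W e p ∈ Matrix.unitaryGroup ι ℂ ∧ hfun W e p * W = W ∧ hfun W e p * W' = W' then
    ⟨hfun W e p, h.1⟩ else 1

theorem Qsel_mul (W : Matrix ι κ ℂ) (W' : Matrix ι κ' ℂ) (e p : ι → ℂ) :
    (Qsel W W' e p : Matrix ι ι ℂ) * W = W := by
  unfold Qsel
  split_ifs with h
  · exact h.2.1
  · simp

theorem Qsel_mul' (W : Matrix ι κ ℂ) (W' : Matrix ι κ' ℂ) (e p : ι → ℂ) :
    (Qsel W W' e p : Matrix ι ι ℂ) * W' = W' := by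
  unfold Qsel
  split_ifs with h
  · exact h.2.2
  · simp

theorem star_unit_mul (Q : Matrix.unitaryGroup ι ℂ) (W : Matrix ι κ ℂ)
    (h : (Q : Matrix ι ι ℂ) * W = W) : star (Q : Matrix ι ι ℂ) * W = W := by
  conv_lhs => rw [← h]
  rw [← Matrix.mul_assoc, Matrix.UnitaryGroup.star_mul_self, Matrix.one_mul]

theorem Qsel_span (W : Matrix ι κ ℂ) (W' : Matrix ι κ' ℂ) (e p : ι → ℂ)
    (hG : IsUnit (Wᴴ * W).det) (hW' : ∃ f : κ' → κ, W' = W.submatrix id f)
    (he : perp W e ≠ 0) :
    ∃ (c : κ → ℂ) (d : ℂ), star (Qsel W W' e p : Matrix ι ι ℂ) *ᵥ p = W *ᵥ c + d • e := by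
  have hfix : star (Qsel W W' e p : Matrix ι ι ℂ) * W = W :=
    star_unit_mul _ _ (Qsel_mul W W' e p)
  by_cases hp : perp W p = 0
  · refine ⟨((Wᴴ * W)⁻¹ * Wᴴ) *ᵥ p, 0, ?_⟩
    have h1 := perp_eq W p
    rw [hp, add_zero] at h1
    have h6 : star (Qsel W W' e p : Matrix ι ι ℂ) *ᵥ (W *ᵥ (((Wᴴ * W)⁻¹ * Wᴴ) *ᵥ p))
        = W *ᵥ (((Wᴴ * W)⁻¹ * Wᴴ) *ᵥ p) := by
      rw [Matrix.mulVec_mulVec, hfix]
    rw [← h1] at h6
    rw [h6, ← h1]
    simp
  · have ha := nrm_unit he
    have hb := nrm_unit hp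
    have hu : hfun W e p ∈ Matrix.unitaryGroup ι ℂ := hous_unitary ha hb
    have hm := hfun_mul W hG e p
    have hm' : hfun W e p * W' = W' := by
      obtain ⟨f, rfl⟩ := hW'
      ext i k
      have := congrFun (congrFun hm i) (f k)
      rw [Matrix.mul_apply] at this ⊢
      simpa using this
    have hQ : (Qsel W W' e p : Matrix ι ι ℂ) = hfun W e p := by
      unfold Qsel
      rw [dif_pos ⟨hu, hm, hm'⟩]
    have hab : hfun W e p *ᵥ nrm (perp W e) = nrm (perp W p) := hous_map ha hb
    have hba : star (Qsel W W' e p : Matrix ι ι ℂ) *ᵥ nrm (perp W p) = nrm (perp W e) := by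
      rw [← hab, ← hQ, Matrix.mulVec_mulVec, Matrix.UnitaryGroup.star_mul_self, Matrix.one_mulVec]
    have h1 := perp_eq W p
    have h2 := smul_nrm (perp W p)
    have h3 := perp_eq W e
    set s : ℂ := ((Real.sqrt (sq (perp W p)) : ℝ) : ℂ) with hs
    set r : ℂ := ((Real.sqrt (sq (perp W e)) : ℝ) : ℂ)⁻¹ with hr
    set c0 := ((Wᴴ * W)⁻¹ * Wᴴ) *ᵥ p with hc0
    set c1 := ((Wᴴ * W)⁻¹ * Wᴴ) *ᵥ e with hc1
    refine ⟨c0 - (s * r) • c1, s * r, ?_⟩
    have h4 : star (Qsel W W' e p : Matrix ι ι ℂ) *ᵥ p = W *ᵥ c0 + s • nrm (perp W e) := by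
      have h6 : star (Qsel W W' e p : Matrix ι ι ℂ) *ᵥ (W *ᵥ c0 + perp W p)
          = W *ᵥ c0 + s • nrm (perp W e) := by
        rw [← h2, Matrix.mulVec_add, Matrix.mulVec_smul, Matrix.mulVec_mulVec, hfix]
        have h7 : nrm (s • nrm (perp W p)) = nrm (perp W p) := by rw [h2]
        rw [← hba]
      rw [← h1] at h6
      exact h6
    rw [h4]
    have h5 : nrm (perp W e) = r • (e - W *ᵥ c1) := by
      rw [nrm, ← hr]
      congr 1
      conv_rhs => rw [h3]
      abel
    rw [h5, Matrix.mulVec_sub, Matrix.mulVec_smul, smul_smul, smul_sub]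
    abel

theorem meas_Qsel {X : Type*} [MeasurableSpace X] {f : X → Matrix ι κ ℂ} (W' : Matrix ι κ' ℂ)
    (e : ι → ℂ) {p : X → (ι → ℂ)} (hf : Measurable f) (hp : Measurable p) :
    Measurable fun x => Qsel (f x) W' e (p x) := by
  have hperp : ∀ {q : X → (ι → ℂ)}, Measurable q → Measurable fun x => perp (f x) (q x) := by
    intro q hq
    exact hq.sub (meas_mulVec (meas_canon hf hf) hq)
  have hh : Measurable fun x => hfun (f x) e (p x) :=
    meas_hous (meas_nrm (hperp measurable_const)) (meas_nrm (hperp hp))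
  have hset : MeasurableSet {x | hfun (f x) e (p x) ∈ Matrix.unitaryGroup ι ℂ ∧
      hfun (f x) e (p x) * f x = f x ∧ hfun (f x) e (p x) * W' = W'} := by
    have e1 : MeasurableSet {x | hfun (f x) e (p x) ∈ Matrix.unitaryGroup ι ℂ} := by
      have : {x | hfun (f x) e (p x) ∈ Matrix.unitaryGroup ι ℂ}
          = {x | hfun (f x) e (p x) * star (hfun (f x) e (p x)) = 1} := by
        ext x; simp [Matrix.mem_unitaryGroup_iff]
      rw [this]
      exact measurableSet_eq_fun (meas_mul hh (meas_star hh)) measurable_const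
    exact e1.inter ((measurableSet_eq_fun (meas_mul hh hf) hf).inter
      (measurableSet_eq_fun (meas_mul hh measurable_const) measurable_const))
  classical
  have hval : Measurable fun x => ((Qsel (f x) W' e (p x) : Matrix ι ι ℂ)) := by
    have : (fun x => ((Qsel (f x) W' e (p x) : Matrix ι ι ℂ))) = fun x =>
        if hfun (f x) e (p x) ∈ Matrix.unitaryGroup ι ℂ ∧
      hfun (f x) e (p x) * f x = f x ∧ hfun (f x) e (p x) * W' = W' then
        hfun (f x) e (p x) else 1 := by
      funext x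
      unfold Qsel
      split_ifs <;> rfl
    rw [this]
    exact Measurable.ite hset hh measurable_const
  exact Measurable.subtype_mk (h := fun x => (Qsel (f x) W' e (p x)).2) hval

end qsel

end Pool.Agent.Helper634.Matvec
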