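import Pool.Agent.Helper634.Matvec.Haar
import Pool.Agent.Helper634.Matvec.Qsel

namespace Pool.Agent.Helper634.Matvec

open MeasureTheory Matrix
open scoped ENNReal ComplexOrder

set_option linter.unusedSectionVars false

variable {ι : Type*} [Fintype ι] [DecidableEq ι]

instance instSCUnitary : SecondCountableTopology (Matrix.unitaryGroup ι ℂ) :=
  TopologicalSpace.Subtype.secondCountableTopology
    (Matrix.unitaryGroup ι ℂ : Set (Matrix ι ι ℂ))

/-- nonadaptive view with natural number indices -/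
def NVn (s : ℕ → ι) (A : Matrix ι ι ℂ) : ℕ → ℕ → (ι → ℂ) :=
  fun a j => (A ^ a) *ᵥ Pi.single (s j) 1

def Wm (t : ℕ) (w : ℕ → ℕ → ι → ℂ) : Matrix ι (Fin (t + 1) × Fin t) ℂ :=
  fun i p => w p.1 p.2 i
def Em (s : ℕ → ι) (t : ℕ) : Matrix ι (Fin t) ℂ := fun i j => (Pi.single (s j) 1 : ι → ℂ) i
def C0 (t : ℕ) (w : ℕ → ℕ → ι → ℂ) : Matrix ι (Fin t × Fin t) ℂ := fun i p => w p.1 p.2 i
def C1 (t : ℕ) (w : ℕ → ℕ → ι → ℂ) : Matrix ι (Fin t × Fin t) ℂ :=
  fun i p => w ((p.1 : ℕ) + 1) p.2 i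

variable (s : ℕ → ι) (φ : ℕ → (ℕ → ι → ℂ) → (ι → ℂ))

/-- simulation: transcript (padded) and frame, as functions of the view -/
noncomputable def sim : ℕ → (ℕ → ℕ → ι → ℂ) → (ℕ → ι → ℂ) × Matrix.unitaryGroup ι ℂ
  | 0, _ => (0, 1)
  | t + 1, w =>
    (Function.update (sim t w).1 t
      ((((sim t w).2 * Qsel (Wm t w) (Em s t) (Pi.single (s t) 1)
          (star ((sim t w).2 : Matrix ι ι ℂ) *ᵥ φ t (sim t w).1) : Matrix.unitaryGroup ι ℂ) :
          Matrix ι ι ℂ) *ᵥ
        (canon (C0 (t + 1) w) (C1 (t + 1) w) *ᵥ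
          (star ((((sim t w).2 * Qsel (Wm t w) (Em s t) (Pi.single (s t) 1)
          (star ((sim t w).2 : Matrix ι ι ℂ) *ᵥ φ t (sim t w).1) : Matrix.unitaryGroup ι ℂ) :
          Matrix ι ι ℂ)) *ᵥ φ t (sim t w).1))),
     (sim t w).2 * Qsel (Wm t w) (Em s t) (Pi.single (s t) 1)
          (star ((sim t w).2 : Matrix ι ι ℂ) *ᵥ φ t (sim t w).1))

/-- the selected unitary at stage `t` -/
noncomputable def Qst (t : ℕ) (w : ℕ → ℕ → ι → ℂ) : Matrix.unitaryGroup ι ℂ :=
  Qsel (Wm t w) (Em s t) (Pi.single (s t) 1)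
    (star ((sim s φ t w).2 : Matrix ι ι ℂ) *ᵥ φ t (sim s φ t w).1)

theorem NVn_zero (A : Matrix ι ι ℂ) (j : ℕ) : NVn s A 0 j = Pi.single (s j) 1 := by
  unfold NVn
  rw [pow_zero, Matrix.one_mulVec]

theorem sim_succ (t : ℕ) (w : ℕ → ℕ → ι → ℂ) :
    sim s φ (t + 1) w = (Function.update (sim s φ t w).1 t
      ((((sim s φ t w).2 * Qst s φ t w : Matrix.unitaryGroup ι ℂ) : Matrix ι ι ℂ) *ᵥ
        (canon (C0 (t + 1) w) (C1 (t + 1) w) *ᵥ
          (star (((sim s φ t w).2 * Qst s φ t w : Matrix.unitaryGroup ι ℂ) : Matrix ι ι ℂ) *ᵥ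
            φ t (sim s φ t w).1))),
     (sim s φ t w).2 * Qst s φ t w) := rfl

theorem sim_congr (t : ℕ) (w w' : ℕ → ℕ → ι → ℂ) (h : ∀ a ≤ t, ∀ j < t, w a j = w' a j) :
    sim s φ t w = sim s φ t w' := by
  induction t with
  | zero => rfl
  | succ t ih =>
    have ih' := ih (fun a ha j hj => h a (by omega) j (by omega))
    have hW : Wm t w = Wm t w' := by
      ext i p
      exact congrFun (h p.1 (by have := p.1.2; omega) p.2 (by have := p.2.2; omega)) i
    have h0 : C0 (t + 1) w = C0 (t + 1) w' := by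
      ext i p
      exact congrFun (h p.1 (by have := p.1.2; omega) p.2 (by have := p.2.2; omega)) i
    have h1 : C1 (t + 1) w = C1 (t + 1) w' := by
      ext i p
      exact congrFun (h _ (by have := p.1.2; omega) p.2 (by have := p.2.2; omega)) i
    rw [sim_succ, sim_succ]
    unfold Qst
    rw [ih', hW, h0, h1]

theorem meas_cont (hφ : ∀ t, Measurable (φ t)) (n : ℕ) : ∀ t,
    Measurable fun p : Matrix ι ι ℂ × (ℕ → ι → ℂ) => cont φ p.1 n t p.2 := by
  induction n with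
  | zero => intro t; exact measurable_snd
  | succ n ih =>
    intro t
    have h1 : Measurable fun p : Matrix ι ι ℂ × (ℕ → ι → ℂ) =>
        Function.update p.2 t (p.1 *ᵥ φ t p.2) :=
      measurable_update'.comp
        (measurable_snd.prodMk (meas_mulVec measurable_fst ((hφ t).comp measurable_snd)))
    exact (ih (t + 1)).comp (measurable_fst.prodMk h1)

theorem meas_Wm (t : ℕ) : Measurable (Wm t : (ℕ → ℕ → ι → ℂ) → _) := by
  refine measurable_pi_iff.mpr fun i => measurable_pi_iff.mpr fun p => ?_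
  exact (measurable_pi_apply i).comp ((measurable_pi_apply (p.2 : ℕ)).comp
    (measurable_pi_apply (p.1 : ℕ)))

theorem meas_C0 (t : ℕ) : Measurable (C0 t : (ℕ → ℕ → ι → ℂ) → _) := by
  refine measurable_pi_iff.mpr fun i => measurable_pi_iff.mpr fun p => ?_
  exact (measurable_pi_apply i).comp ((measurable_pi_apply (p.2 : ℕ)).comp
    (measurable_pi_apply (p.1 : ℕ)))

theorem meas_C1 (t : ℕ) : Measurable (C1 t : (ℕ → ℕ → ι → ℂ) → _) := by
  refine measurable_pi_iff.mpr fun i => measurable_pi_iff.mpr fun p => ?_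
  exact (measurable_pi_apply i).comp ((measurable_pi_apply (p.2 : ℕ)).comp
    (measurable_pi_apply ((p.1 : ℕ) + 1)))

theorem meas_coe {X : Type*} [MeasurableSpace X] {f : X → Matrix.unitaryGroup ι ℂ}
    (hf : Measurable f) : Measurable fun x => (f x : Matrix ι ι ℂ) :=
  measurable_subtype_coe.comp hf

theorem meas_sim (hφ : ∀ t, Measurable (φ t)) (t : ℕ) : Measurable (sim s φ t) := by
  induction t with
  | zero => exact measurable_const
  | succ t ih =>
    have hy : Measurable fun w => (sim s φ t w).1 := measurable_fst.comp ih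
    have hP : Measurable fun w => (sim s φ t w).2 := measurable_snd.comp ih
    have hq : Measurable fun w => φ t (sim s φ t w).1 := (hφ t).comp hy
    have hQ : Measurable fun w => Qst s φ t w :=
      meas_Qsel _ _ (meas_Wm t) (meas_mulVec (meas_star (meas_coe hP)) hq)
    have hPQ : Measurable fun w => (sim s φ t w).2 * Qst s φ t w := hP.mul hQ
    have h1 : Measurable fun w =>
        ((((sim s φ t w).2 * Qst s φ t w : Matrix.unitaryGroup ι ℂ) : Matrix ι ι ℂ) *ᵥ
        (canon (C0 (t + 1) w) (C1 (t + 1) w) *ᵥ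
          (star (((sim s φ t w).2 * Qst s φ t w : Matrix.unitaryGroup ι ℂ) : Matrix ι ι ℂ) *ᵥ
            φ t (sim s φ t w).1))) :=
      meas_mulVec (meas_coe hPQ) (meas_mulVec (meas_canon (meas_C0 _) (meas_C1 _))
        (meas_mulVec (meas_star (meas_coe hPQ)) hq))
    exact (measurable_update'.comp (hy.prodMk h1)).prodMk hPQ

theorem meas_Qst (hφ : ∀ t, Measurable (φ t)) (t : ℕ) : Measurable (Qst s φ t) := by
  have ih := meas_sim s φ hφ t
  have hy : Measurable fun w => (sim s φ t w).1 := measurable_fst.comp ih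
  have hP : Measurable fun w => (sim s φ t w).2 := measurable_snd.comp ih
  have hq : Measurable fun w => φ t (sim s φ t w).1 := (hφ t).comp hy
  exact meas_Qsel _ _ (meas_Wm t) (meas_mulVec (meas_star (meas_coe hP)) hq)

theorem meas_NVn : Measurable (NVn s : Matrix ι ι ℂ → _) := by
  refine measurable_pi_iff.mpr fun a => measurable_pi_iff.mpr fun j => ?_
  exact meas_mulVec ((continuous_id.pow a).measurable) measurable_const

/-! ### generic matrices -/

def Gen (T : ℕ) (A : Matrix ι ι ℂ) : Prop :=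
  LinearIndependent ℂ (fun p : Fin (T + 1) × Fin T => NVn s A p.1 p.2)

theorem gen_W {T : ℕ} {A : Matrix ι ι ℂ} (h : Gen s T A) {t : ℕ} (ht : t < T) :
    IsUnit ((Wm t (NVn s A))ᴴ * Wm t (NVn s A)).det := by
  refine gram_isUnit _ ?_
  let f : Fin (t + 1) × Fin t → Fin (T + 1) × Fin T :=
    fun p => (⟨p.1, by have := p.1.2; omega⟩, ⟨p.2, by have := p.2.2; omega⟩)
  have hf : Function.Injective f := by
    intro p q hpq
    simp only [f, Prod.mk.injEq, Fin.mk.injEq] at hpq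
    exact Prod.ext (Fin.ext hpq.1) (Fin.ext hpq.2)
  exact h.comp f hf

theorem gen_C0 {T : ℕ} {A : Matrix ι ι ℂ} (h : Gen s T A) {t : ℕ} (ht : t < T) :
    IsUnit ((C0 (t + 1) (NVn s A))ᴴ * C0 (t + 1) (NVn s A)).det := by
  refine gram_isUnit _ ?_
  let f : Fin (t + 1) × Fin (t + 1) → Fin (T + 1) × Fin T :=
    fun p => (⟨p.1, by have := p.1.2; omega⟩, ⟨p.2, by have := p.2.2; omega⟩)
  have hf : Function.Injective f := by
    intro p q hpq
    simp only [f, Prod.mk.injEq, Fin.mk.injEq] at hpq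
    exact Prod.ext (Fin.ext hpq.1) (Fin.ext hpq.2)
  exact h.comp f hf

theorem gen_perp {T : ℕ} {A : Matrix ι ι ℂ} (h : Gen s T A) {t : ℕ} (ht : t < T) :
    perp (Wm t (NVn s A)) (Pi.single (s t) 1) ≠ 0 := by
  intro h0
  have h1 := perp_eq (Wm t (NVn s A)) (Pi.single (s t) 1)
  rw [h0, add_zero] at h1
  let f : Fin (t + 1) × Fin t → Fin (T + 1) × Fin T :=
    fun p => (⟨p.1, by have := p.1.2; omega⟩, ⟨p.2, by have := p.2.2; omega⟩)
  have hx : ((0 : Fin (T + 1)), (⟨t, ht⟩ : Fin T)) ∉ Set.range f := by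
    rintro ⟨p, hp⟩
    simp only [f, Prod.mk.injEq, Fin.mk.injEq] at hp
    have := p.2.2
    omega
  have h2 := h.notMem_span_image hx
  apply h2
  have h3 : NVn s A ((0 : Fin (T + 1)) : ℕ) ((⟨t, ht⟩ : Fin T) : ℕ) = Pi.single (s t) 1 :=
    NVn_zero s A t
  rw [h3, h1, Matrix.mulVec_eq_sum]
  refine Submodule.sum_mem _ fun k _ => ?_
  rw [op_smul_eq_smul]
  exact Submodule.smul_mem _ _ (Submodule.subset_span ⟨f k, ⟨k, rfl⟩, rfl⟩)

theorem canon_eq {T : ℕ} {A : Matrix ι ι ℂ} (h : Gen s T A) {t : ℕ} (ht : t < T)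
    (c : Fin (t + 1) × Fin t → ℂ) (d : ℂ) :
    canon (C0 (t + 1) (NVn s A)) (C1 (t + 1) (NVn s A)) *ᵥ
      (Wm t (NVn s A) *ᵥ c + d • Pi.single (s t) 1) =
    A *ᵥ (Wm t (NVn s A) *ᵥ c + d • Pi.single (s t) 1) := by
  set w := NVn s A with hw
  have hC : canon (C0 (t + 1) w) (C1 (t + 1) w) * C0 (t + 1) w = C1 (t + 1) w :=
    canon_mul _ _ (gen_C0 s h ht)
  have hA : A * C0 (t + 1) w = C1 (t + 1) w := by
    ext i p
    have : (A * C0 (t + 1) w) i p = (A *ᵥ (w p.1 p.2)) i := rfl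
    rw [this, hw]
    simp only [NVn, C1, Matrix.mulVec_mulVec]
    rw [← pow_succ']
  have hmem : ∃ c', Wm t w *ᵥ c + d • Pi.single (s t) 1 = C0 (t + 1) w *ᵥ c' := by
    have : Wm t w *ᵥ c + d • Pi.single (s t) 1 ∈ LinearMap.range (C0 (t + 1) w).mulVecLin := by
      refine Submodule.add_mem _ ?_ (Submodule.smul_mem _ _ ?_)
      · rw [Matrix.mulVec_eq_sum]
        refine Submodule.sum_mem _ fun k _ => ?_
        rw [op_smul_eq_smul]
        refine Submodule.smul_mem _ _ ?_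
        refine ⟨Pi.single (k.1, ⟨k.2, by have := k.2.2; omega⟩) 1, ?_⟩
        rw [Matrix.mulVecLin_apply, Matrix.mulVec_single_one]
        rfl
      · refine ⟨Pi.single (0, ⟨t, by omega⟩) 1, ?_⟩
        rw [Matrix.mulVecLin_apply, Matrix.mulVec_single_one]
        ext i
        exact congrFun (NVn_zero s A t) i
    obtain ⟨c', hc'⟩ := this
    exact ⟨c', hc'.symm⟩
  obtain ⟨c', hc'⟩ := hmem
  rw [hc', Matrix.mulVec_mulVec, Matrix.mulVec_mulVec, hC, hA]

end Pool.Agent.Helper634.Matvec
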