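import Pool.Agent.Helper634.Matvec.Sim

namespace Pool.Agent.Helper634.Matvec

open MeasureTheory Matrix
open scoped ENNReal ComplexOrder

set_option linter.unusedSectionVars false

variable {ι : Type*} [Fintype ι] [DecidableEq ι]
variable (s : ℕ → ι) (φ : ℕ → (ℕ → ι → ℂ) → (ι → ℂ))

/-- conjugation action -/
def cja (Q : Matrix.unitaryGroup ι ℂ) (A : Matrix ι ι ℂ) : Matrix ι ι ℂ :=
  (Q : Matrix ι ι ℂ) * A * star (Q : Matrix ι ι ℂ)

theorem cja_mul (g h : Matrix.unitaryGroup ι ℂ) (A : Matrix ι ι ℂ) :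
    cja (g * h) A = cja g (cja h A) := by
  unfold cja
  rw [Matrix.UnitaryGroup.mul_val, star_mul]
  simp only [Matrix.mul_assoc]

theorem cja_pow (Q : Matrix.unitaryGroup ι ℂ) (A : Matrix ι ι ℂ) (a : ℕ) :
    (cja Q A) ^ a = cja Q (A ^ a) := by
  induction a with
  | zero =>
    unfold cja
    rw [pow_zero, pow_zero, Matrix.mul_one]
    exact (Matrix.mem_unitaryGroup_iff.mp Q.2).symm
  | succ a ih =>
    rw [pow_succ, ih, pow_succ]
    unfold cja
    calc (Q : Matrix ι ι ℂ) * A ^ a * star (Q : Matrix ι ι ℂ) * ((Q : Matrix ι ι ℂ) * A * star (Q : Matrix ι ι ℂ))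
        = (Q : Matrix ι ι ℂ) * A ^ a * (star (Q : Matrix ι ι ℂ) * (Q : Matrix ι ι ℂ)) * A * star (Q : Matrix ι ι ℂ) := by
          simp only [Matrix.mul_assoc]
      _ = _ := by
          rw [Matrix.UnitaryGroup.star_mul_self, Matrix.mul_one]
          simp only [Matrix.mul_assoc]

theorem star_fix (Q : Matrix.unitaryGroup ι ℂ) (x : ι → ℂ) (h : (Q : Matrix ι ι ℂ) *ᵥ x = x) :
    star (Q : Matrix ι ι ℂ) *ᵥ x = x := by
  conv_lhs => rw [← h]
  rw [Matrix.mulVec_mulVec, Matrix.UnitaryGroup.star_mul_self, Matrix.one_mulVec]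

theorem NVn_equi (g : Matrix.unitaryGroup ι ℂ) (A : Matrix ι ι ℂ) (a j : ℕ)
    (hg : (g : Matrix ι ι ℂ) *ᵥ Pi.single (s j) 1 = Pi.single (s j) 1) :
    NVn s (cja g A) a j = (g : Matrix ι ι ℂ) *ᵥ NVn s A a j := by
  unfold NVn
  rw [cja_pow, cja, ← Matrix.mulVec_mulVec, star_fix g _ hg, Matrix.mulVec_mulVec]

theorem Qst_fix (t : ℕ) (w : ℕ → ℕ → ι → ℂ) (a j : ℕ) (ha : a ≤ t) (hj : j < t) :
    (Qst s φ t w : Matrix ι ι ℂ) *ᵥ w a j = w a j := by
  have h := Qsel_mul (Wm t w) (Em s t) (Pi.single (s t) 1)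
    (star ((sim s φ t w).2 : Matrix ι ι ℂ) *ᵥ φ t (sim s φ t w).1)
  ext i
  have := congrFun (congrFun h i) ((⟨a, by omega⟩ : Fin (t + 1)), (⟨j, hj⟩ : Fin t))
  exact this

theorem Qst_fix' (t : ℕ) (w : ℕ → ℕ → ι → ℂ) (j : ℕ) (hj : j < t) :
    (Qst s φ t w : Matrix ι ι ℂ) *ᵥ Pi.single (s j) 1 = Pi.single (s j) 1 := by
  have h := Qsel_mul' (Wm t w) (Em s t) (Pi.single (s t) 1)
    (star ((sim s φ t w).2 : Matrix ι ι ℂ) *ᵥ φ t (sim s φ t w).1)
  ext i
  have := congrFun (congrFun h i) (⟨j, hj⟩ : Fin t)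
  exact this

theorem Qst_congr (t : ℕ) (w w' : ℕ → ℕ → ι → ℂ) (h : ∀ a ≤ t, ∀ j < t, w a j = w' a j) :
    Qst s φ t w = Qst s φ t w' := by
  have hW : Wm t w = Wm t w' := by
    ext i p
    exact congrFun (h p.1 (by have := p.1.2; omega) p.2 (by have := p.2.2; omega)) i
  unfold Qst
  rw [hW, sim_congr s φ t w w' h]

/-- extension by zero of a truncated view -/
def ext0 (t : ℕ) (v : Fin (t + 1) → Fin t → ι → ℂ) : ℕ → ℕ → ι → ℂ := fun a j =>
  if h : a < t + 1 ∧ j < t then v ⟨a, h.1⟩ ⟨j, h.2⟩ else 0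

theorem meas_ext0 (t : ℕ) : Measurable (ext0 t : (Fin (t + 1) → Fin t → ι → ℂ) → _) := by
  refine measurable_pi_iff.mpr fun a => measurable_pi_iff.mpr fun j => ?_
  unfold ext0
  by_cases h : a < t + 1 ∧ j < t
  · simp only [h, and_self, dif_pos]
    exact (measurable_pi_apply _).comp (measurable_pi_apply _)
  · simp only [h, dite_false]
    exact measurable_const

theorem theta_preserves (hφ : ∀ t, Measurable (φ t)) (t : ℕ) (ν : Measure (Matrix ι ι ℂ))
    [IsFiniteMeasure ν]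
    (hν : ∀ U ∈ Matrix.unitaryGroup ι ℂ, ν.map (fun A => U * A * star U) = ν) :
    ν.map (fun A => cja (Qst s φ t (NVn s A)) A) = ν := by
  let K : Subgroup (Matrix.unitaryGroup ι ℂ) :=
    { carrier := {g | ∀ j < t, (g : Matrix ι ι ℂ) *ᵥ Pi.single (s j) 1 = Pi.single (s j) 1}
      mul_mem' := by
        intro a b ha hb j hj
        rw [Matrix.UnitaryGroup.mul_val, ← Matrix.mulVec_mulVec, hb j hj, ha j hj]
      one_mem' := by
        intro j hj
        rw [Matrix.UnitaryGroup.one_val, Matrix.one_mulVec]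
      inv_mem' := by
        intro a ha j hj
        rw [Matrix.UnitaryGroup.inv_val]
        exact star_fix a _ (ha j hj) }
  have hcoe : Continuous fun g : Matrix.unitaryGroup ι ℂ => (g : Matrix ι ι ℂ) :=
    continuous_subtype_val
  have hK : IsClosed (K : Set (Matrix.unitaryGroup ι ℂ)) := by
    have : (K : Set (Matrix.unitaryGroup ι ℂ)) = ⋂ j, ⋂ (_ : j < t),
        {g : Matrix.unitaryGroup ι ℂ |
          (g : Matrix ι ι ℂ) *ᵥ Pi.single (s j) 1 = Pi.single (s j) 1} := by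
      ext g; simp only [Set.mem_iInter]; rfl
    rw [this]
    refine isClosed_iInter fun j => isClosed_iInter fun _ => ?_
    exact isClosed_eq (hcoe.matrix_mulVec continuous_const) continuous_const
  let aY : Matrix.unitaryGroup ι ℂ → (Fin (t + 1) → Fin t → ι → ℂ) →
      (Fin (t + 1) → Fin t → ι → ℂ) := fun g v a j => (g : Matrix ι ι ℂ) *ᵥ v a j
  let V : Matrix ι ι ℂ → (Fin (t + 1) → Fin t → ι → ℂ) := fun A a j => NVn s A a j
  let Q : (Fin (t + 1) → Fin t → ι → ℂ) → Matrix.unitaryGroup ι ℂ := fun v => Qst s φ t (ext0 t v)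
  have hV : Measurable V := by
    refine measurable_pi_iff.mpr fun a => measurable_pi_iff.mpr fun j => ?_
    exact (measurable_pi_apply (j : ℕ)).comp ((measurable_pi_apply (a : ℕ)).comp (meas_NVn s))
  have hQ : Measurable Q := (meas_Qst s φ hφ t).comp (meas_ext0 t)
  have key := map_stabiliser (G := Matrix.unitaryGroup ι ℂ) cja cja_mul aY
    (fun y => by
      funext a j
      show ((1 : Matrix.unitaryGroup ι ℂ) : Matrix ι ι ℂ) *ᵥ y a j = y a j
      rw [Matrix.UnitaryGroup.one_val, Matrix.one_mulVec])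
    (fun g h y => by
      funext a j
      show ((g * h : Matrix.unitaryGroup ι ℂ) : Matrix ι ι ℂ) *ᵥ y a j
        = (g : Matrix ι ι ℂ) *ᵥ ((h : Matrix ι ι ℂ) *ᵥ y a j)
      rw [Matrix.UnitaryGroup.mul_val, Matrix.mulVec_mulVec])
    (meas_mul (meas_mul (meas_coe measurable_fst) measurable_snd)
      (meas_star (meas_coe measurable_fst)))
    (fun y => by
      refine measurable_pi_iff.mpr fun a => measurable_pi_iff.mpr fun j => ?_
      exact meas_mulVec (meas_coe measurable_id) measurable_const)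
    K hK
    (fun y => by
      have : {g : Matrix.unitaryGroup ι ℂ | aY g y = y} = ⋂ a, ⋂ j,
          {g : Matrix.unitaryGroup ι ℂ | (g : Matrix ι ι ℂ) *ᵥ y a j = y a j} := by
        ext g
        simp only [Set.mem_iInter, Set.mem_setOf_eq, aY]
        constructor
        · intro h a j; exact congrFun (congrFun h a) j
        · intro h; funext a j; exact h a j
      rw [this]
      refine isClosed_iInter fun a => isClosed_iInter fun j => ?_
      exact isClosed_eq (hcoe.matrix_mulVec continuous_const) continuous_const)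
    ν (fun g _ => hν g g.2) V hV
    (fun g hg A => by
      funext a j
      exact NVn_equi s g A a j (hg j j.2))
    Q hQ
    (fun v j hj => Qst_fix' s φ t (ext0 t v) j hj)
    (fun v => by
      funext a j
      have h1 : ext0 t v a j = v a j := by
        unfold ext0
        rw [dif_pos ⟨a.2, j.2⟩]
      have h2 := Qst_fix s φ t (ext0 t v) a j (by have := a.2; omega) j.2
      rw [h1] at h2
      exact h2)
  have hfun : (fun A => cja (Qst s φ t (NVn s A)) A) = fun A => cja (Q (V A)) A := by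
    funext A
    have : Qst s φ t (NVn s A) = Q (V A) := by
      refine Qst_congr s φ t _ _ fun a ha j hj => ?_
      unfold ext0
      rw [dif_pos ⟨by omega, hj⟩]
    rw [this]
  rw [hfun]
  exact key

/-- the hybrid functional -/
noncomputable def Phi (f : (ℕ → ι → ℂ) → ℝ≥0∞) (T t : ℕ) (A : Matrix ι ι ℂ) : ℝ≥0∞ :=
  f (cont φ (cja (sim s φ t (NVn s A)).2 A) (T - t) t (sim s φ t (NVn s A)).1)

theorem Phi_step (f : (ℕ → ι → ℂ) → ℝ≥0∞) {T t : ℕ} (ht : t < T) {A : Matrix ι ι ℂ}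
    (hA : Gen s T A) :
    Phi s φ f T (t + 1) A = Phi s φ f T t (cja (Qst s φ t (NVn s A)) A) := by
  set w := NVn s A with hw
  set Q := Qst s φ t w with hQ
  have hagree : ∀ a ≤ t, ∀ j < t, NVn s (cja Q A) a j = w a j := by
    intro a ha j hj
    rw [NVn_equi s Q A a j (Qst_fix' s φ t w j hj)]
    exact Qst_fix s φ t w a j ha hj
  have hsim : sim s φ t (NVn s (cja Q A)) = sim s φ t w := sim_congr s φ t _ _ hagree
  unfold Phi
  rw [hsim, ← hw, sim_succ, ← hQ]
  set y := (sim s φ t w).1 with hy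
  set P := (sim s φ t w).2 with hP
  have hn : T - t = (T - (t + 1)) + 1 := by omega
  rw [hn]
  simp only [cont]
  rw [← cja_mul]
  congr 2
  -- value of the update
  congr 1
  obtain ⟨c, d, hcd⟩ := Qsel_span (Wm t w) (Em s t) (Pi.single (s t) 1)
    (star (P : Matrix ι ι ℂ) *ᵥ φ t y) (gen_W s hA ht)
    ⟨fun j => ((0 : Fin (t + 1)), j), by
      ext i j
      have := NVn_zero s A j
      show (Pi.single (s j) 1 : ι → ℂ) i = w ((0 : Fin (t + 1)) : ℕ) j i
      rw [hw]
      exact (congrFun this i).symm⟩ (gen_perp s hA ht)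
  have hu : star ((P * Q : Matrix.unitaryGroup ι ℂ) : Matrix ι ι ℂ) *ᵥ φ t y
      = Wm t w *ᵥ c + d • Pi.single (s t) 1 := by
    rw [Matrix.UnitaryGroup.mul_val, star_mul, ← Matrix.mulVec_mulVec]
    exact hcd
  rw [hu, canon_eq s hA ht, ← hw, ← hu]
  unfold cja
  rw [Matrix.mulVec_mulVec, Matrix.mulVec_mulVec]

theorem simulationN (hφ : ∀ t, Measurable (φ t)) (T : ℕ) (ν : Measure (Matrix ι ι ℂ))
    [IsFiniteMeasure ν]
    (hν : ∀ U ∈ Matrix.unitaryGroup ι ℂ, ν.map (fun A => U * A * star U) = ν)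
    (hgen : ∀ᵐ A ∂ν, Gen s T A) :
    ν.map (fun A => cont φ A T 0 0) = ν.map (fun A => (sim s φ T (NVn s A)).1) := by
  have m1 : Measurable fun A : Matrix ι ι ℂ => cont φ A T 0 0 :=
    (meas_cont φ hφ T 0).comp (measurable_id.prodMk measurable_const)
  have m2 : Measurable fun A : Matrix ι ι ℂ => (sim s φ T (NVn s A)).1 :=
    measurable_fst.comp ((meas_sim s φ hφ T).comp (meas_NVn s))
  refine Measure.ext_of_lintegral _ fun f hf => ?_
  rw [lintegral_map hf m1, lintegral_map hf m2]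
  have hPhi : ∀ t, Measurable (Phi s φ f T t) := by
    intro t
    have hs := (meas_sim s φ hφ t).comp (meas_NVn s)
    have h1 : Measurable fun A : Matrix ι ι ℂ => cja (sim s φ t (NVn s A)).2 A :=
      meas_mul (meas_mul (meas_coe (measurable_snd.comp hs)) measurable_id)
        (meas_star (meas_coe (measurable_snd.comp hs)))
    exact hf.comp ((meas_cont φ hφ (T - t) t).comp (h1.prodMk (measurable_fst.comp hs)))
  have hstep : ∀ t, t < T → ∫⁻ A, Phi s φ f T (t + 1) A ∂ν = ∫⁻ A, Phi s φ f T t A ∂ν := by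
    intro t ht
    have hQm : Measurable fun A : Matrix ι ι ℂ => Qst s φ t (NVn s A) :=
      (meas_Qst s φ hφ t).comp (meas_NVn s)
    have hθ : Measurable fun A : Matrix ι ι ℂ => cja (Qst s φ t (NVn s A)) A :=
      meas_mul (meas_mul (meas_coe hQm) measurable_id) (meas_star (meas_coe hQm))
    calc ∫⁻ A, Phi s φ f T (t + 1) A ∂ν
        = ∫⁻ A, Phi s φ f T t (cja (Qst s φ t (NVn s A)) A) ∂ν := by
          refine lintegral_congr_ae ?_
          filter_upwards [hgen] with A hA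
          exact Phi_step s φ f ht hA
      _ = ∫⁻ A, Phi s φ f T t A ∂(ν.map fun A => cja (Qst s φ t (NVn s A)) A) :=
          (lintegral_map (hPhi t) hθ).symm
      _ = ∫⁻ A, Phi s φ f T t A ∂ν := by rw [theta_preserves s φ hφ t ν hν]
  have hall : ∀ t, t ≤ T → ∫⁻ A, Phi s φ f T t A ∂ν = ∫⁻ A, Phi s φ f T 0 A ∂ν := by
    intro t
    induction t with
    | zero => intro _; rfl
    | succ t ih => intro ht; rw [hstep t (by omega), ih (by omega)]
  have h0 : ∀ A, Phi s φ f T 0 A = f (cont φ A T 0 0) := by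
    intro A
    unfold Phi
    simp only [sim, Nat.sub_zero]
    congr 2
    unfold cja
    simp
  have hT : ∀ A, Phi s φ f T T A = f ((sim s φ T (NVn s A)).1) := by
    intro A
    unfold Phi
    rw [Nat.sub_self]
    rfl
  calc ∫⁻ A, f (cont φ A T 0 0) ∂ν = ∫⁻ A, Phi s φ f T 0 A ∂ν := by simp_rw [h0]
    _ = ∫⁻ A, Phi s φ f T T A ∂ν := (hall T le_rfl).symm
    _ = ∫⁻ A, f ((sim s φ T (NVn s A)).1) ∂ν := by simp_rw [hT]

/-- **Adaptivity removal.** -/
theorem simulation (T : ℕ) (s : Fin T → ι) (φ : ℕ → (ℕ → ι → ℂ) → (ι → ℂ))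
    (hφ : ∀ t, Measurable (φ t)) :
    ∃ Ψ : (Fin (T + 1) → Fin T → (ι → ℂ)) → (ℕ → ι → ℂ), Measurable Ψ ∧
      ∀ ν : Measure (Matrix ι ι ℂ), IsFiniteMeasure ν →
        (∀ U ∈ Matrix.unitaryGroup ι ℂ, ν.map (fun A => U * A * star U) = ν) →
        (∀ᵐ A ∂ν, Generic s A) →
        ν.map (fun A => cont φ A T 0 0) = ν.map (fun A => Ψ (NV s A)) := by
  rcases Nat.eq_zero_or_pos T with hT | hT
  · subst hT
    refine ⟨fun _ => 0, measurable_const, fun ν _ _ _ => rfl⟩
  let s' : ℕ → ι := fun j => if h : j < T then s ⟨j, h⟩ else s ⟨0, hT⟩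
  have hs' : ∀ j : Fin T, s' j = s j := by
    intro j
    simp only [s', j.2, dif_pos]
  have hNV : ∀ (A : Matrix ι ι ℂ) (a : Fin (T + 1)) (j : Fin T), NVn s' A a j = NV s A a j := by
    intro A a j
    unfold NVn NV
    rw [hs']
  refine ⟨fun v => (sim s' φ T (ext0 T v)).1,
    measurable_fst.comp ((meas_sim s' φ hφ T).comp (meas_ext0 T)), fun ν hfin hν hgen => ?_⟩
  have hgen' : ∀ᵐ A ∂ν, Gen s' T A := by
    filter_upwards [hgen] with A hA
    unfold Gen
    unfold Generic at hA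
    have : (fun p : Fin (T + 1) × Fin T => NVn s' A p.1 p.2) =
        fun p : Fin (T + 1) × Fin T => NV s A p.1 p.2 := by
      funext p; exact hNV A p.1 p.2
    rw [this]; exact hA
  rw [simulationN s' φ hφ T ν hν hgen']
  congr 1
  funext A
  have : sim s' φ T (NVn s' A) = sim s' φ T (ext0 T (NV s A)) := by
    refine sim_congr s' φ T _ _ fun a ha j hj => ?_
    unfold ext0
    rw [dif_pos ⟨by omega, hj⟩]
    exact hNV A ⟨a, by omega⟩ ⟨j, hj⟩
  rw [this]

end Pool.Agent.Helper634.Matvec
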