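import Mathlib

/-!
# Randomised adaptive matrix-vector product algorithms (MP_4289a5_an)
-/

namespace Pool.Agent.Helper634.Matvec

open MeasureTheory

universe u

/-- A randomised adaptive algorithm that accesses an unknown `A : ℂ^{n×n}` only through exact
products `x ↦ A x`.  `Ω, P` is its internal randomness.  After `t` products, with answers
`y 0, …, y (t-1)`, it either stops (`halt t ω y = true`) and returns `output t ω y`, or asks for the
product with the vector `query t ω y`.  It receives nothing about `A` (nor about `κ_V`) besides the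
dimension; the dependence on `n` and `ε` is by choosing one such object for every `n` and `ε`. -/
structure MatVecAlg (n : ℕ) where
  /-- sample space of the internal randomness -/
  Ω : Type u
  /-- its sigma-algebra -/
  mΩ : MeasurableSpace Ω
  /-- its law -/
  P : @Measure Ω mΩ
  prob : @IsProbabilityMeasure Ω mΩ P
  /-- does it stop after the answers `y 0, …, y (t-1)`? -/
  halt : (t : ℕ) → Ω → (Fin t → Fin n → ℂ) → Bool
  /-- next query vector -/
  query : (t : ℕ) → Ω → (Fin t → Fin n → ℂ) → (Fin n → ℂ)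
  /-- returned number -/
  output : (t : ℕ) → Ω → (Fin t → Fin n → ℂ) → ℂ
  measurable_halt : ∀ t, Measurable (Function.uncurry (halt t))
  measurable_query : ∀ t, Measurable (Function.uncurry (query t))
  measurable_output : ∀ t, Measurable (Function.uncurry (output t))

/-- The first `t` answers when the algorithm is run on `A` with seed `ω` (stopping ignored). -/
def answers {n : ℕ} (a : MatVecAlg.{u} n) (A : Matrix (Fin n) (Fin n) ℂ) (ω : a.Ω) :
    (t : ℕ) → Fin t → Fin n → ℂ
  | 0 => Fin.elim0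
  | t + 1 => Fin.snoc (answers a A ω t) (A.mulVec (a.query t ω (answers a A ω t)))

/-- On input `A` with seed `ω` the algorithm stops after exactly `t` products. -/
def StopsAfter {n : ℕ} (a : MatVecAlg.{u} n) (A : Matrix (Fin n) (Fin n) ℂ) (ω : a.Ω) (t : ℕ) :
    Prop :=
  a.halt t ω (answers a A ω t) = true ∧ ∀ s < t, a.halt s ω (answers a A ω s) = false

/-- `A = V D V⁻¹` with `V` invertible and `D` diagonal. -/
def DiagonalizedBy {n : ℕ} (A V : Matrix (Fin n) (Fin n) ℂ) : Prop :=
  IsUnit V ∧ ∃ d : Fin n → ℂ, A = V * Matrix.diagonal d * V⁻¹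

/-- operator 2-norm -/
noncomputable def opNorm2 {n : ℕ} (V : Matrix (Fin n) (Fin n) ℂ) : ℝ :=
  ‖Matrix.toEuclideanCLM (𝕜 := ℂ) V‖

/-- eigenvector condition number: infimum of `‖V‖ ‖V⁻¹‖` over all diagonalisations -/
noncomputable def kappaV {n : ℕ} (A : Matrix (Fin n) (Fin n) ℂ) : ℝ :=
  sInf {κ : ℝ | ∃ V, DiagonalizedBy A V ∧ κ = opNorm2 V * opNorm2 V⁻¹}

/-- `|λ₁|`: the largest modulus of an eigenvalue -/
noncomputable def topModulus {n : ℕ} (A : Matrix (Fin n) (Fin n) ℂ) : ℝ :=
  sSup {r : ℝ | ∃ μ ∈ spectrum ℂ A, r = ‖μ‖}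

/-- acceptable outputs -/
def Acceptable {n : ℕ} (A : Matrix (Fin n) (Fin n) ℂ) (ε : ℝ) (lam : ℂ) : Prop :=
  ∃ μ ∈ spectrum ℂ A, (1 - ε) * topModulus A ≤ ‖μ‖ ∧ ‖lam - μ‖ ≤ ε * topModulus A

/-- The event (over the internal randomness) that on input `A` the algorithm stops after at most
`b` products and returns an acceptable number. -/
def Success {n : ℕ} (a : MatVecAlg.{u} n) (A : Matrix (Fin n) (Fin n) ℂ) (ε b : ℝ) : Set a.Ω :=
  {ω | ∃ t : ℕ, (t : ℝ) ≤ b ∧ StopsAfter a A ω t ∧ Acceptable A ε (a.output t ω (answers a A ω t))}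

/-- Target of the assembly. -/
def Target : Prop :=
  ¬ ∃ (p : MvPolynomial (Fin 2) ℝ) (alg : (n : ℕ) → (ε : ℝ) → MatVecAlg.{u} n),
    ∀ n : ℕ, 1 ≤ n → ∀ ε : ℝ, 0 < ε → ε < 1 →
      ∀ A : Matrix (Fin n) (Fin n) ℂ, (∃ V, DiagonalizedBy A V) →
        2 / 3 ≤ @Measure.real _ (alg n ε).mΩ (alg n ε).P
          (Success (alg n ε) A ε (MvPolynomial.eval ![Real.log (n * kappaV A), 1 / ε] p))

end Pool.Agent.Helper634.Matvec
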